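import Pool.Agent.H90.QC.Cn

/-!
Counting squarefree numbers composed of the primes of a set of positive lower density, analytic part.
-/

set_option autoImplicit false

open Finset Real
open Pool.Agent.H85.OT

namespace Pool.Agent.H90.QC

variable {P : ℕ → Prop}

theorem pi_up {x : ℕ} (hx : 2 ≤ x) : (Nat.primeCounting x : ℝ) ≤ 5 * x / log x := by
  have hx1 : (2 : ℝ) ≤ x := by exact_mod_cast hx
  have hl : 0 < log x := log_pos (by linarith)
  have h := Chebyshev.pi_le_log4_mul_div (x := (x : ℝ)) (by linarith)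
  rw [Nat.floor_natCast] at h
  have h1 : log √(x : ℝ) = log x / 2 := log_sqrt (by linarith)
  rw [h1] at h
  have h2 : log (4 : ℝ) ≤ 1.4 := by
    have : log (4 : ℝ) = 2 * log 2 := by
      rw [show (4 : ℝ) = 2 ^ 2 by norm_num, log_pow]
      norm_num
    rw [this]
    have := log_two_lt_d9
    linarith
  have h3 : √(x : ℝ) ≤ 2 * x / log x := by
    rw [le_div_iff₀ hl]
    have h4 : log x ≤ 2 * √(x : ℝ) := by
      have h5 := log_le_sub_one_of_pos (show 0 < √(x : ℝ) by positivity)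
      linarith
    calc √(x : ℝ) * log x ≤ √(x : ℝ) * (2 * √(x : ℝ)) := by gcongr
      _ = 2 * x := by
        rw [mul_left_comm, mul_self_sqrt (by linarith)]
  refine h.trans ?_
  have h6 : log 4 * (x : ℝ) / (log x / 2) ≤ 2.8 * x / log x := by
    rw [div_le_div_iff₀ (by positivity) hl]
    calc log 4 * (x : ℝ) * log x ≤ 1.4 * x * log x := by gcongr
      _ = 2.8 * x * (log x / 2) := by ring
  have h7 : 2.8 * (x : ℝ) / log x + 2 * x / log x ≤ 5 * x / log x := by
    rw [← add_div]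
    gcongr
    linarith
  linarith

theorem pi_low : ∃ n1 : ℕ, ∀ x : ℕ, n1 ≤ x → (x : ℝ) / (2 * log x) ≤ Nat.primeCounting x := by
  refine ⟨100, fun x hx => ?_⟩
  have hx1 : (100 : ℝ) ≤ x := by exact_mod_cast hx
  have hl : 0 < log x := log_pos (by linarith)
  refine le_trans ?_ (Chebyshev.pi_ge x)
  rw [div_le_div_iff₀ (by positivity) hl]
  have h1 : log ((x : ℝ) + 1) ≤ (x : ℝ) / 10 := by
    have h2 := log_le_sub_one_of_pos (show 0 < ((x : ℝ) + 1) / 20 by positivity)
    rw [log_div (by positivity) (by norm_num)] at h2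
    have h3 : log (20 : ℝ) ≤ 3.5 := by
      have : log (20 : ℝ) ≤ log (2 ^ 5) := log_le_log (by norm_num) (by norm_num)
      rw [log_pow] at this
      have := log_two_lt_d9
      push_cast at *
      linarith
    linarith
  have h4 := log_two_gt_d9
  have h5 : (x : ℝ) * log 2 - log ((x : ℝ) + 1) ≥ x / 2 := by
    nlinarith
  nlinarith

theorem dens (h : PosLower P) : ∃ K : ℕ, 2 ≤ K ∧ ∃ x1 : ℕ, 2 ≤ x1 ∧ ∀ x : ℕ, x1 ≤ x →
    (x : ℝ) / log x ≤ cnt P (K * x) - cnt P x := by
  obtain ⟨c0, hc0, x0, hx0⟩ := h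
  obtain ⟨n1, hn1⟩ := pi_low
  obtain ⟨K, hK⟩ := exists_nat_ge (24 / c0 + 2)
  have hK2 : 2 ≤ K := by
    have : (2 : ℝ) ≤ K := by
      have : 0 < 24 / c0 := by positivity
      linarith
    exact_mod_cast this
  refine ⟨K, hK2, max (max x0 n1) (max K 2), le_trans (le_max_right _ _) (le_max_right _ _), fun x hx => ?_⟩
  have hxa : x0 ≤ x := le_trans (le_trans (le_max_left _ _) (le_max_left _ _)) hx
  have hxb : n1 ≤ x := le_trans (le_trans (le_max_right _ _) (le_max_left _ _)) hx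
  have hxc : K ≤ x := le_trans (le_trans (le_max_left _ _) (le_max_right _ _)) hx
  have hx2 : 2 ≤ x := le_trans (le_trans (le_max_right _ _) (le_max_right _ _)) hx
  have hx2' : (2 : ℝ) ≤ x := by exact_mod_cast hx2
  have hl : 0 < log x := log_pos (by linarith)
  have hKx : x ≤ K * x := Nat.le_mul_of_pos_left x (by omega)
  have h1 := hx0 (K * x) (hxa.trans hKx)
  have h2 := hn1 (K * x) (hxb.trans hKx)
  have h3 : (cnt P x : ℝ) ≤ 5 * x / log x := (cnt_le x).trans (pi_up hx2)
  have hK0 : (0 : ℝ) < K := by exact_mod_cast (show 0 < K by omega)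
  have h4 : log ((K * x : ℕ) : ℝ) ≤ 2 * log x := by
    push_cast
    rw [log_mul (by positivity) (by positivity)]
    have : log (K : ℝ) ≤ log x := log_le_log hK0 (by exact_mod_cast hxc)
    linarith
  have h4' : 0 < log ((K * x : ℕ) : ℝ) := by
    apply log_pos
    have : (2 : ℝ) ≤ ((K * x : ℕ) : ℝ) := by exact_mod_cast hx2.trans hKx
    linarith
  have h5 : (K : ℝ) * x / (4 * log x) ≤ Nat.primeCounting (K * x) := by
    refine le_trans ?_ h2
    push_cast at h4 h4' ⊢
    rw [div_le_div_iff₀ (by positivity) (by positivity)]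
    have : 0 ≤ (K : ℝ) * x := by positivity
    nlinarith
  have h6 : c0 * ((K : ℝ) * x / (4 * log x)) ≤ cnt P (K * x) :=
    (mul_le_mul_of_nonneg_left h5 hc0.le).trans h1
  have h7 : 6 * ((x : ℝ) / log x) ≤ c0 * ((K : ℝ) * x / (4 * log x)) := by
    have h8 : 24 ≤ c0 * K := by
      have : 24 / c0 ≤ K := by linarith
      rw [div_le_iff₀ hc0] at this
      linarith
    have e : c0 * ((K : ℝ) * x / (4 * log x)) = (c0 * K / 4) * (x / log x) := by
      field_simp
    rw [e]
    have : 0 ≤ (x : ℝ) / log x := by positivity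
    nlinarith
  have h9 : 5 * (x : ℝ) / log x = 5 * (x / log x) := by ring
  rw [h9] at h3
  linarith

theorem pr_split {a b c : ℕ} (hab : a ≤ b) (hbc : b ≤ c) :
    ∑ p ∈ pr P a c, (1 : ℝ) / p = ∑ p ∈ pr P a b, (1 : ℝ) / p + ∑ p ∈ pr P b c, (1 : ℝ) / p := by
  rw [← Finset.sum_union]
  · refine Finset.sum_congr ?_ fun _ _ => rfl
    ext x
    simp only [mem_union, mem_pr]
    constructor
    · rintro ⟨h1, h2⟩
      rcases le_or_gt x b with h | h
      · exact Or.inl ⟨⟨h1.1, h⟩, h2⟩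
      · exact Or.inr ⟨⟨h, h1.2⟩, h2⟩
    · rintro (⟨h1, h2⟩ | ⟨h1, h2⟩)
      · exact ⟨⟨h1.1, h1.2.trans hbc⟩, h2⟩
      · exact ⟨⟨lt_of_le_of_lt hab h1.1, h1.2⟩, h2⟩
  · rw [Finset.disjoint_left]
    intro x hx hx'
    rw [mem_pr] at hx hx'
    omega

theorem pr_sum_ge (a b : ℕ) : ((pr P a b).card : ℝ) / b ≤ ∑ p ∈ pr P a b, (1 : ℝ) / p := by
  have h : ∀ p ∈ pr P a b, (1 : ℝ) / b ≤ 1 / p := by
    intro p hp
    rw [mem_pr] at hp
    have h1 : (0 : ℝ) < p := by exact_mod_cast hp.2.1.pos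
    exact one_div_le_one_div_of_le h1 (by exact_mod_cast hp.1.2)
  calc ((pr P a b).card : ℝ) / b = ∑ _p ∈ pr P a b, (1 : ℝ) / b := by
        rw [Finset.sum_const, nsmul_eq_mul]
        ring
    _ ≤ _ := Finset.sum_le_sum h

theorem recip (h : PosLower P) : ∃ c2 : ℝ, 0 < c2 ∧ ∃ M1 : ℕ, 2 ≤ M1 ∧ ∀ M : ℕ, M1 ≤ M →
    c2 ≤ ∑ p ∈ pr P M (M ^ 2), (1 : ℝ) / p := by
  obtain ⟨K, hK2, x1, hx1, hd⟩ := dens h
  have hK2' : (2 : ℝ) ≤ K := by exact_mod_cast hK2
  have hlK : 0 < log K := log_pos (by linarith)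
  refine ⟨1 / (4 * K * log K), by positivity, max x1 (K ^ 2), hx1.trans (le_max_left _ _), fun M hM => ?_⟩
  have hMx : x1 ≤ M := (le_max_left _ _).trans hM
  have hMK : K ^ 2 ≤ M := (le_max_right _ _).trans hM
  have hM2 : 2 ≤ M := hx1.trans hMx
  have hM2' : (2 : ℝ) ≤ M := by exact_mod_cast hM2
  have hlM : 0 < log M := log_pos (by linarith)
  -- the induction over the intervals
  have ind : ∀ I : ℕ, K ^ I ≤ M → (I : ℝ) * (1 / (2 * K * log M)) ≤
      ∑ p ∈ pr P M (M * K ^ I), (1 : ℝ) / p := by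
    intro I
    induction I with
    | zero =>
      intro _
      rw [Nat.cast_zero, zero_mul]
      exact Finset.sum_nonneg fun _ _ => by positivity
    | succ I ih =>
      intro hI
      have hI' : K ^ I ≤ M := (Nat.pow_le_pow_right (by omega) (Nat.le_succ I)).trans hI
      have h0 : 0 < K ^ I := Nat.pow_pos (by omega)
      have h1 : M ≤ M * K ^ I := Nat.le_mul_of_pos_right M h0
      have h2 : M * K ^ I ≤ M * K ^ (I + 1) :=
        Nat.mul_le_mul_left M (Nat.pow_le_pow_right (by omega) (Nat.le_succ I))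
      rw [pr_split h1 h2]
      have h3 := ih hI'
      have h4 : 1 / (2 * K * log M) ≤ ∑ p ∈ pr P (M * K ^ I) (M * K ^ (I + 1)), (1 : ℝ) / p := by
        refine le_trans ?_ (pr_sum_ge _ _)
        have h5 := hd (M * K ^ I) (hMx.trans h1)
        have e : K * (M * K ^ I) = M * K ^ (I + 1) := by ring
        rw [e] at h5
        rw [← card_pr _ _ h2] at h5
        have hpos : (0 : ℝ) < ((M * K ^ I : ℕ) : ℝ) := by
          exact_mod_cast Nat.mul_pos (by omega) h0
        have hge2 : (2 : ℝ) ≤ ((M * K ^ I : ℕ) : ℝ) := by exact_mod_cast hM2.trans h1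
        have hl : 0 < log ((M * K ^ I : ℕ) : ℝ) := log_pos (by linarith)
        have hl2 : log ((M * K ^ I : ℕ) : ℝ) ≤ 2 * log M := by
          have : log ((M * K ^ I : ℕ) : ℝ) ≤ log ((M : ℝ) * M) := by
            apply log_le_log hpos
            exact_mod_cast Nat.mul_le_mul_left M hI'
          rw [log_mul (by positivity) (by positivity)] at this
          linarith
        have hb : ((M * K ^ (I + 1) : ℕ) : ℝ) = K * ((M * K ^ I : ℕ) : ℝ) := by
          rw [← e]
          push_cast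
          ring
        rw [hb]
        have hK0 : (0 : ℝ) < K := by linarith
        calc 1 / (2 * K * log M) ≤ 1 / (K * log ((M * K ^ I : ℕ) : ℝ)) := by
              apply one_div_le_one_div_of_le (by positivity)
              nlinarith
          _ = (((M * K ^ I : ℕ) : ℝ) / log ((M * K ^ I : ℕ) : ℝ)) / (K * ((M * K ^ I : ℕ) : ℝ)) := by
              field_simp
          _ ≤ _ := by gcongr
      push_cast
      linarith
  have hlog : K ^ Nat.log K M ≤ M := Nat.pow_log_le_self K (by omega)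
  have h1 := ind (Nat.log K M) hlog
  have h2 : M * K ^ Nat.log K M ≤ M ^ 2 := by
    rw [pow_two]
    exact Nat.mul_le_mul_left M hlog
  have h3 : M ≤ M * K ^ Nat.log K M := Nat.le_mul_of_pos_right M (Nat.pow_pos (by omega))
  rw [pr_split h3 h2]
  have h4 : 0 ≤ ∑ p ∈ pr P (M * K ^ Nat.log K M) (M ^ 2), (1 : ℝ) / p :=
    Finset.sum_nonneg fun _ _ => by positivity
  have h5 : log M / (2 * log K) ≤ (Nat.log K M : ℝ) := by
    have h6 : M < K ^ (Nat.log K M + 1) := Nat.lt_pow_succ_log_self (by omega) M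
    have h7 : log M ≤ (Nat.log K M + 1 : ℝ) * log K := by
      have : log (M : ℝ) ≤ log ((K : ℝ) ^ (Nat.log K M + 1)) :=
        log_le_log (by linarith) (by exact_mod_cast h6.le)
      rw [log_pow] at this
      push_cast at this
      exact this
    have h8 : 2 * log K ≤ log M := by
      have : log ((K : ℝ) ^ 2) ≤ log M := log_le_log (by positivity) (by exact_mod_cast hMK)
      rw [log_pow] at this
      push_cast at this
      exact this
    rw [div_le_iff₀ (by positivity)]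
    nlinarith
  have h6 : 1 / (4 * K * log K) ≤ (Nat.log K M : ℝ) * (1 / (2 * K * log M)) := by
    have hK0 : (0 : ℝ) < K := by linarith
    calc 1 / (4 * K * log K) = log M / (2 * log K) * (1 / (2 * K * log M)) := by
          field_simp
          norm_num
      _ ≤ _ := by gcongr
  linarith

theorem growth (h : PosLower P) : ∃ γ : ℝ, 0 < γ ∧ ∃ M0 : ℕ, 2 ≤ M0 ∧ ∀ M : ℕ, M0 ≤ M →
    (log M / (3 * log M0)) ^ γ ≤ Hs P M := by
  obtain ⟨c2, hc2, M0, hM0, hr⟩ := recip h
  have hl3 : 0 < log (3 : ℝ) := log_pos (by norm_num)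
  have hl2 : 0 < log (1 + c2) := log_pos (by linarith)
  have hM0' : (2 : ℝ) ≤ M0 := by exact_mod_cast hM0
  have hlM0 : 0 < log M0 := log_pos (by linarith)
  refine ⟨log (1 + c2) / log 3, by positivity, M0, hM0, fun M hM => ?_⟩
  have ind : ∀ j : ℕ, (1 + c2) ^ j ≤ Hs P (M0 ^ 3 ^ j) := by
    intro j
    induction j with
    | zero => simpa using one_le_Hs (P := P) (by omega : 1 ≤ M0)
    | succ j ih =>
      have h1 : M0 ≤ M0 ^ 3 ^ j := Nat.le_self_pow (by positivity) M0
      have h2 := Hs_cube (P := P) (M := M0 ^ 3 ^ j) (by omega)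
      have e : (M0 ^ 3 ^ j) ^ 3 = M0 ^ 3 ^ (j + 1) := by
        rw [← pow_mul, ← pow_succ]
      rw [e] at h2
      refine le_trans ?_ h2
      rw [pow_succ]
      have h3 := hr _ h1
      have h4 : 0 ≤ Hs P (M0 ^ 3 ^ j) := Hs_nonneg _
      gcongr
  obtain ⟨j, hj⟩ : ∃ j, j = Nat.log 3 (Nat.log M0 M) := ⟨_, rfl⟩
  have hL : 1 ≤ Nat.log M0 M := by
    have := Nat.log_pos (b := M0) (by omega) hM
    omega
  have h1 : 3 ^ j ≤ Nat.log M0 M := by
    rw [hj]
    exact Nat.pow_log_le_self 3 (by omega)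
  have h2 : Nat.log M0 M < 3 ^ (j + 1) := by
    rw [hj]
    exact Nat.lt_pow_succ_log_self (by norm_num) _
  have h3 : M0 ^ 3 ^ j ≤ M :=
    (Nat.pow_le_pow_right (by omega) h1).trans (Nat.pow_log_le_self M0 (by omega))
  have h4 : log M / (3 * log M0) ≤ (3 : ℝ) ^ j := by
    have h5 : M < M0 ^ (Nat.log M0 M + 1) := Nat.lt_pow_succ_log_self (by omega) M
    have h6 : log M ≤ (Nat.log M0 M + 1 : ℝ) * log M0 := by
      have h7 : (0 : ℝ) < M := by
        have : (M0 : ℝ) ≤ M := by exact_mod_cast hM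
        linarith
      have : log (M : ℝ) ≤ log ((M0 : ℝ) ^ (Nat.log M0 M + 1)) :=
        log_le_log h7 (by exact_mod_cast h5.le)
      rw [log_pow] at this
      push_cast at this
      exact this
    have h8 : (Nat.log M0 M + 1 : ℝ) ≤ 3 * 3 ^ j := by
      have : Nat.log M0 M + 1 ≤ 3 ^ (j + 1) := h2
      have h9 : ((Nat.log M0 M + 1 : ℕ) : ℝ) ≤ ((3 ^ (j + 1) : ℕ) : ℝ) := by exact_mod_cast this
      push_cast at h9
      rw [pow_succ] at h9
      linarith
    rw [div_le_iff₀ (by positivity)]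
    calc log M ≤ (Nat.log M0 M + 1 : ℝ) * log M0 := h6
      _ ≤ (3 * 3 ^ j) * log M0 := by gcongr
      _ = 3 ^ j * (3 * log M0) := by ring
  have hlM : 0 ≤ log M := log_natCast_nonneg M
  calc (log M / (3 * log M0)) ^ (log (1 + c2) / log 3) ≤ ((3 : ℝ) ^ j) ^ (log (1 + c2) / log 3) := by
        apply rpow_le_rpow (by positivity) h4 (by positivity)
    _ = (1 + c2) ^ j := by
        rw [← rpow_natCast, ← rpow_mul (by norm_num), mul_comm (j : ℝ), rpow_mul (by norm_num),
          rpow_natCast]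
        congr 1
        rw [rpow_def_of_pos (by norm_num), mul_div_cancel₀ _ hl3.ne', exp_log (by linarith)]
    _ ≤ Hs P (M0 ^ 3 ^ j) := ind j
    _ ≤ Hs P M := Hs_mono h3

end Pool.Agent.H90.QC
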