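import Pool.Agent.H90.QC.Cm

/-!
Squarefree numbers composed of the primes of a set `P` of positive lower density: for some `c > 0` and all
large `Y` at least `Y / (log Y) ^ (1 - c)` of them are at most `Y`.
-/

set_option autoImplicit false

open Finset Real Filter
open Pool.Agent.H85.OT

namespace Pool.Agent.H90.QC

variable {P : ℕ → Prop}

theorem term (h : PosLower P) : ∃ c0 : ℝ, 0 < c0 ∧ ∃ z0 : ℕ, ∀ Y M m : ℕ, 1 ≤ m → m ≤ M →
    2 * m ≤ Y → z0 ≤ Y / m → 2 ≤ Y →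
    c0 * (Y / (m * log Y)) - M ≤ ((pr P M (Y / m)).card : ℝ) := by
  classical
  obtain ⟨c0, hc0, x0, hx0⟩ := h
  obtain ⟨n1, hn1⟩ := pi_low
  refine ⟨c0 / 4, by positivity, max x0 (max n1 2), fun Y M m hm hmM h2m hz hY => ?_⟩
  have hza : x0 ≤ Y / m := (le_max_left _ _).trans hz
  have hzb : n1 ≤ Y / m := ((le_max_left _ _).trans (le_max_right _ _)).trans hz
  have hzc : 2 ≤ Y / m := ((le_max_right _ _).trans (le_max_right _ _)).trans hz
  have hzc' : (2 : ℝ) ≤ ((Y / m : ℕ) : ℝ) := by exact_mod_cast hzc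
  have hlz : 0 < log ((Y / m : ℕ) : ℝ) := log_pos (by linarith)
  have hm0 : (0 : ℝ) < m := by exact_mod_cast hm
  have hY0 : (2 : ℝ) ≤ Y := by exact_mod_cast hY
  have hlY : 0 < log Y := log_pos (by linarith)
  have hlz2 : log ((Y / m : ℕ) : ℝ) ≤ log Y := by
    apply log_le_log (by linarith)
    exact_mod_cast Nat.div_le_self Y m
  have h1 : (Y : ℝ) / (2 * m) ≤ ((Y / m : ℕ) : ℝ) := by
    have h2 : Y < (Y / m + 1) * m := by
      have := Nat.lt_mul_div_succ Y (show 0 < m by omega)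
      rw [mul_comm] at this
      exact this
    have h3 : (Y : ℝ) < (((Y / m : ℕ) : ℝ) + 1) * m := by exact_mod_cast h2
    have h4 : 2 * (m : ℝ) ≤ Y := by exact_mod_cast h2m
    rw [div_le_iff₀ (by positivity)]
    nlinarith
  have h5 := hx0 _ hza
  have h6 := hn1 _ hzb
  have h7 : (cnt P M : ℝ) ≤ M := by
    rw [cnt]
    norm_cast
    have h8 : ((Finset.range (M + 1)).filter (fun p => p.Prime ∧ P p)) ⊆ Finset.Icc 1 M := by
      intro x hx
      rw [mem_filter, mem_range] at hx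
      rw [mem_Icc]
      exact ⟨hx.2.1.one_lt.le, by omega⟩
    have := card_le_card h8
    rw [Nat.card_Icc] at this
    omega
  have h9 : (cnt P (Y / m) : ℝ) - cnt P M ≤ ((pr P M (Y / m)).card : ℝ) := by
    rcases le_total M (Y / m) with hle | hle
    · rw [card_pr _ _ hle]
    · have h10 : (cnt P (Y / m) : ℝ) ≤ cnt P M := by
        rw [cnt, cnt]
        norm_cast
        refine card_le_card ?_
        intro x hx
        rw [mem_filter, mem_range] at hx ⊢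
        exact ⟨by omega, hx.2⟩
      have : (0 : ℝ) ≤ ((pr P M (Y / m)).card : ℝ) := by positivity
      linarith
  have h11 : c0 / 4 * ((Y : ℝ) / (m * log Y)) ≤ c0 * Nat.primeCounting (Y / m) := by
    have h12 : (Y : ℝ) / (2 * m) / (2 * log Y) ≤ Nat.primeCounting (Y / m) := by
      refine le_trans ?_ h6
      gcongr
    calc c0 / 4 * ((Y : ℝ) / (m * log Y)) = c0 * ((Y : ℝ) / (2 * m) / (2 * log Y)) := by
          field_simp
          norm_num
      _ ≤ _ := by gcongr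
  linarith

/-- the main statement on counting -/
theorem count (h : PosLower P) : ∃ c : ℝ, 0 < c ∧ ∃ Y0 : ℕ, ∀ Y : ℕ, Y0 ≤ Y →
    (Y : ℝ) / (log Y) ^ (1 - c) ≤ (sq P Y).card := by
  obtain ⟨c0, hc0, z0, hterm⟩ := term h
  obtain ⟨γ, hγ, M0, hM0, hg⟩ := growth h
  have hM0' : (2 : ℝ) ≤ M0 := by exact_mod_cast hM0
  have hlM0 : 0 < log M0 := log_pos (by linarith)
  -- the limits needed
  have t1 : Tendsto (fun Y : ℕ => (Y : ℝ)) atTop atTop := tendsto_natCast_atTop_atTop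
  have t2 : Tendsto (fun Y : ℕ => (Y : ℝ) ^ (1 / 8 : ℝ)) atTop atTop :=
    (tendsto_rpow_atTop (by norm_num)).comp t1
  have t3 : Tendsto (fun Y : ℕ => log (Y : ℝ)) atTop atTop := tendsto_log_atTop.comp t1
  set κ : ℝ := c0 / 2 * (1 / (24 * log M0)) ^ γ with hκ
  have hκ0 : 0 < κ := by positivity
  have t4 : Tendsto (fun Y : ℕ => (log (Y : ℝ)) ^ (γ / 2)) atTop atTop :=
    (tendsto_rpow_atTop (by positivity)).comp t3
  have t5 : ∀ᶠ Y : ℕ in atTop, log (Y : ℝ) ≤ c0 / 2 * (Y : ℝ) ^ (1 / 4 : ℝ) := by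
    have := (isLittleO_log_rpow_atTop (show (0 : ℝ) < 1 / 4 by norm_num)).bound
      (show 0 < c0 / 2 by positivity)
    have h2 := t1.eventually this
    filter_upwards [h2, t1.eventually (eventually_ge_atTop 1)] with Y h3 h4
    rw [norm_of_nonneg (log_nonneg h4), norm_of_nonneg (by positivity)] at h3
    exact h3
  have ev : ∀ᶠ Y : ℕ in atTop, 2 ≤ Y ∧ (2 : ℝ) ≤ (Y : ℝ) ^ (1 / 8 : ℝ) ∧ (M0 : ℝ) + 1 ≤ (Y : ℝ) ^ (1 / 8 : ℝ) ∧
      (z0 : ℝ) + 2 ≤ (Y : ℝ) ^ (1 / 8 : ℝ) ∧ 1 ≤ log (Y : ℝ) ∧ 1 / κ ≤ (log (Y : ℝ)) ^ (γ / 2) ∧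
      log (Y : ℝ) ≤ c0 / 2 * (Y : ℝ) ^ (1 / 4 : ℝ) := by
    filter_upwards [eventually_ge_atTop 2, t2.eventually (eventually_ge_atTop 2),
      t2.eventually (eventually_ge_atTop ((M0 : ℝ) + 1)), t2.eventually (eventually_ge_atTop ((z0 : ℝ) + 2)),
      t3.eventually (eventually_ge_atTop 1), t4.eventually (eventually_ge_atTop (1 / κ)), t5] with
      Y a1 a2 a3 a4 a5 a6 a7
    exact ⟨a1, a2, a3, a4, a5, a6, a7⟩
  obtain ⟨Y0, hY0⟩ := eventually_atTop.1 ev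
  refine ⟨γ / 2, by positivity, Y0, fun Y hY => ?_⟩
  obtain ⟨hY2, b2, b3, b4, b5, b6, b7⟩ := hY0 Y hY
  have hYr : (2 : ℝ) ≤ Y := by exact_mod_cast hY2
  have hY00 : (0 : ℝ) < Y := by linarith
  have hlY : 0 < log (Y : ℝ) := by linarith
  -- powers
  obtain ⟨w, hw⟩ : ∃ w : ℝ, w = (Y : ℝ) ^ (1 / 8 : ℝ) := ⟨_, rfl⟩
  have hw0 : 0 < w := by rw [hw]; positivity
  have hw2 : (Y : ℝ) ^ (1 / 4 : ℝ) = w ^ 2 := by
    rw [hw, ← rpow_natCast, ← rpow_mul hY00.le]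
    norm_num
  have hw8 : (Y : ℝ) = w ^ 8 := by
    rw [hw, ← rpow_natCast, ← rpow_mul hY00.le]
    norm_num
  rw [← hw] at b2 b3 b4
  rw [hw2] at b7
  -- the choice of `M`
  obtain ⟨M, hM⟩ : ∃ M : ℕ, M = ⌊w ^ 2⌋₊ := ⟨_, rfl⟩
  have hM1 : (M : ℝ) ≤ w ^ 2 := by
    rw [hM]
    exact Nat.floor_le (by positivity)
  have hM2 : w ^ 2 < M + 1 := by
    rw [hM]
    exact Nat.lt_floor_add_one _
  have hMw : w ≤ M := by nlinarith
  have hM00 : (0 : ℝ) < M := by linarith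
  have hMM0 : M0 ≤ M := by
    have : (M0 : ℝ) ≤ M := by linarith
    exact_mod_cast this
  have hH := hg M hMM0
  have hlM : log (Y : ℝ) / 8 ≤ log M := by
    have h1 : log w ≤ log M := log_le_log hw0 hMw
    have h2 : log (Y : ℝ) = 8 * log w := by
      rw [hw8, log_pow]
      norm_num
    linarith
  -- each term
  have hw1 : (1 : ℝ) ≤ w := by linarith
  have hterm2 : ∀ m ∈ sq P M, c0 / 2 * (Y / log Y) * (1 / m) ≤ ((pr P M (Y / m)).card : ℝ) := by
    intro m hm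
    rw [mem_sq] at hm
    have hm1 := hm.1.1
    have hm2 := hm.1.2
    have hmr : (1 : ℝ) ≤ m := by exact_mod_cast hm1
    have hmr2 : (m : ℝ) ≤ w ^ 2 := le_trans (by exact_mod_cast hm2) hM1
    have h2m : 2 * m ≤ Y := by
      have : 2 * (m : ℝ) ≤ Y := by
        rw [hw8]
        have h1 : w ^ 3 ≤ w ^ 8 := pow_le_pow_right₀ hw1 (by norm_num)
        nlinarith [mul_le_mul_of_nonneg_left hmr2 hw0.le]
      exact_mod_cast this
    have hz : z0 ≤ Y / m := by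
      rw [Nat.le_div_iff_mul_le (by omega)]
      have : (z0 : ℝ) * m ≤ Y := by
        rw [hw8]
        have h1 : w ^ 3 ≤ w ^ 8 := pow_le_pow_right₀ hw1 (by norm_num)
        have h2 : (z0 : ℝ) ≤ w := by linarith
        calc (z0 : ℝ) * m ≤ w * w ^ 2 := by gcongr
          _ = w ^ 3 := by ring
          _ ≤ w ^ 8 := h1
      exact_mod_cast this
    have h3 := hterm Y M m hm1 hm2 h2m hz hY2
    refine le_trans ?_ h3
    have h4 : (M : ℝ) ≤ c0 / 2 * (Y / (m * log Y)) := by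
      have h5 : (M : ℝ) * (m * log Y) ≤ c0 / 2 * Y := by
        calc (M : ℝ) * (m * log Y) ≤ w ^ 2 * (w ^ 2 * (c0 / 2 * w ^ 2)) := by gcongr
          _ = c0 / 2 * w ^ 6 := by ring
          _ ≤ c0 / 2 * w ^ 8 := by
            have := pow_le_pow_right₀ hw1 (show 6 ≤ 8 by norm_num)
            gcongr
          _ = c0 / 2 * Y := by rw [hw8]
      have h6 : 0 < (m : ℝ) * log Y := by positivity
      have h7 : c0 / 2 * ((Y : ℝ) / (m * log Y)) = c0 / 2 * Y / (m * log Y) := by ring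
      rw [h7, le_div_iff₀ h6]
      exact h5
    have e : c0 / 2 * ((Y : ℝ) / log Y) * (1 / m) = c0 / 2 * (Y / (m * log Y)) := by
      field_simp
    rw [e]
    have e2 : c0 * ((Y : ℝ) / (m * log Y)) = c0 / 2 * (Y / (m * log Y)) + c0 / 2 * (Y / (m * log Y)) := by
      ring
    linarith
  have hsum : c0 / 2 * (Y / log Y) * Hs P M ≤ (sq P Y).card := by
    refine le_trans ?_ (card_sq Y M)
    rw [Hs, Finset.mul_sum]
    exact Finset.sum_le_sum hterm2
  refine le_trans ?_ hsum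
  have h1 : (log Y * (1 / (24 * log M0))) ^ γ ≤ Hs P M := by
    refine le_trans ?_ hH
    apply rpow_le_rpow (by positivity) _ hγ.le
    rw [le_div_iff₀ (by positivity)]
    have : log (Y : ℝ) * (1 / (24 * log M0)) * (3 * log M0) = log Y / 8 := by
      field_simp
      norm_num
    rw [this]
    exact hlM
  rw [mul_rpow hlY.le (by positivity)] at h1
  have h2 : (Y : ℝ) / (log Y) ^ (1 - γ / 2) = Y / log Y * (log Y) ^ (γ / 2) := by
    rw [rpow_sub hlY, rpow_one]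
    field_simp
  rw [h2]
  have h3 : (log (Y : ℝ)) ^ (γ / 2) ≤ c0 / 2 * ((log Y) ^ γ * (1 / (24 * log M0)) ^ γ) := by
    have e : (log (Y : ℝ)) ^ γ = (log Y) ^ (γ / 2) * (log Y) ^ (γ / 2) := by
      rw [← rpow_add hlY]
      congr 1
      ring
    have h4 : 1 ≤ κ * (log (Y : ℝ)) ^ (γ / 2) := by
      rw [div_le_iff₀ hκ0] at b6
      linarith
    have h5 : 0 ≤ (log (Y : ℝ)) ^ (γ / 2) := by positivity
    calc (log (Y : ℝ)) ^ (γ / 2) = 1 * (log (Y : ℝ)) ^ (γ / 2) := (one_mul _).symm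
      _ ≤ κ * (log (Y : ℝ)) ^ (γ / 2) * (log (Y : ℝ)) ^ (γ / 2) := by gcongr
      _ = _ := by
        rw [e, hκ]
        ring
  have h6 : 0 ≤ (Y : ℝ) / log Y := by positivity
  calc (Y : ℝ) / log Y * (log Y) ^ (γ / 2)
      ≤ Y / log Y * (c0 / 2 * ((log Y) ^ γ * (1 / (24 * log M0)) ^ γ)) := by gcongr
    _ = c0 / 2 * (Y / log Y) * ((log Y) ^ γ * (1 / (24 * log M0)) ^ γ) := by ring
    _ ≤ c0 / 2 * (Y / log Y) * Hs P M := by gcongr

/-- At least `Y / (log Y) ^ (1 - c)` squarefree numbers composed of primes with `P` are at most `Y`. -/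
theorem count_set (h : PosLower P) : ∃ c : ℝ, 0 < c ∧ ∃ Y0 : ℕ, ∀ Y : ℕ, Y0 ≤ Y →
    (Y : ℝ) / (log Y) ^ (1 - c) ≤
      ({m : ℕ | m ≤ Y ∧ Squarefree m ∧ ∀ p : ℕ, p.Prime → p ∣ m → P p}.ncard : ℝ) := by
  obtain ⟨c, hc, Y0, h1⟩ := count h
  refine ⟨c, hc, Y0, fun Y hY => (h1 Y hY).trans (le_of_eq ?_)⟩
  have e : {m : ℕ | m ≤ Y ∧ Squarefree m ∧ ∀ p : ℕ, p.Prime → p ∣ m → P p} = (sq P Y : Set ℕ) := by
    ext m
    rw [Finset.mem_coe, mem_sq, Set.mem_ofPred_eq]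
    constructor
    · rintro ⟨h1, h2⟩
      exact ⟨⟨Nat.one_le_iff_ne_zero.2 h2.1.ne_zero, h1⟩, h2⟩
    · rintro ⟨h1, h2⟩
      exact ⟨h1.2, h2⟩
  rw [e, Set.ncard_coe_finset]

end Pool.Agent.H90.QC
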