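import Mathlib
import Pool.Agent.H85.OT.ADef

/-!
Counting squarefree numbers composed of the primes of a set of positive lower density: at least
`Y / (log Y) ^ (1 - c)` of them are at most `Y`.
-/

set_option autoImplicit false

open Finset Real
open Pool.Agent.H85.OT

namespace Pool.Agent.H90.QC

open Classical in
/-- squarefree numbers `≤ M` composed of primes with `P` -/
noncomputable def sq (P : ℕ → Prop) (M : ℕ) : Finset ℕ :=
  (Finset.Icc 1 M).filter (fun m => Squarefree m ∧ ∀ p : ℕ, p.Prime → p ∣ m → P p)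

open Classical in
/-- primes with `P` in `(a, b]` -/
noncomputable def pr (P : ℕ → Prop) (a b : ℕ) : Finset ℕ :=
  (Finset.Ioc a b).filter (fun p => p.Prime ∧ P p)

/-- the harmonic sum -/
noncomputable def Hs (P : ℕ → Prop) (M : ℕ) : ℝ := ∑ m ∈ sq P M, (1 : ℝ) / m

variable {P : ℕ → Prop}

theorem mem_sq {M m : ℕ} : m ∈ sq P M ↔ (1 ≤ m ∧ m ≤ M) ∧ Squarefree m ∧ ∀ p : ℕ, p.Prime → p ∣ m → P p := by
  simp [sq]

theorem mem_pr {a b p : ℕ} : p ∈ pr P a b ↔ (a < p ∧ p ≤ b) ∧ p.Prime ∧ P p := by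
  simp [pr]

theorem one_mem {M : ℕ} (h : 1 ≤ M) : 1 ∈ sq P M := by
  rw [mem_sq]
  refine ⟨⟨le_rfl, h⟩, squarefree_one, fun p hp hd => ?_⟩
  exact absurd (Nat.dvd_one.1 hd) hp.ne_one

theorem card_pr (a b : ℕ) (hab : a ≤ b) : ((pr P a b).card : ℝ) = cnt P b - cnt P a := by
  classical
  have h : (cnt P a : ℝ) + (pr P a b).card = cnt P b := by
    rw [cnt, cnt, pr]
    norm_cast
    rw [← card_union_of_disjoint]
    · congr 1
      ext x
      simp only [mem_union, mem_filter, mem_range, mem_Ioc]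
      constructor
      · rintro (h | h)
        · exact ⟨by omega, h.2⟩
        · exact ⟨by omega, h.2⟩
      · rintro ⟨h1, h2⟩
        by_cases hx : x < a + 1
        · exact Or.inl ⟨hx, h2⟩
        · exact Or.inr ⟨by omega, h2⟩
    · rw [Finset.disjoint_left]
      intro x hx hx'
      rw [mem_filter, mem_range] at hx
      rw [mem_filter, mem_Ioc] at hx'
      omega
  linarith

theorem cnt_le (a : ℕ) : (cnt P a : ℝ) ≤ Nat.primeCounting a := by
  classical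
  rw [cnt, Nat.primeCounting, Nat.primeCounting', Nat.count_eq_card_filter_range]
  norm_cast
  refine card_le_card ?_
  intro x hx
  rw [mem_filter] at hx ⊢
  exact ⟨hx.1, hx.2.1⟩

/-- the products `m p`, `m ≤ M < p`, `p ∤ m` -/
theorem mul_mem {M b Y m p : ℕ} (hm : m ∈ sq P M) (hp : p ∈ pr P M b) (hY : m * p ≤ Y) :
    m * p ∈ sq P Y := by
  rw [mem_sq] at hm ⊢
  rw [mem_pr] at hp
  have hp0 := hp.2.1.pos
  refine ⟨⟨Nat.one_le_iff_ne_zero.2 (Nat.mul_ne_zero (by omega) (by omega)), hY⟩, ?_, ?_⟩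
  · have hc : Nat.Coprime m p := by
      rw [Nat.coprime_comm, hp.2.1.coprime_iff_not_dvd]
      intro hd
      have := Nat.le_of_dvd (by omega) hd
      omega
    exact (Nat.squarefree_mul hc).2 ⟨hm.2.1, hp.2.1.prime.squarefree⟩
  · intro q hq hd
    rcases (hq.dvd_mul).1 hd with h | h
    · exact hm.2.2 q hq h
    · rw [(Nat.prime_dvd_prime_iff_eq hq hp.2.1).1 h]
      exact hp.2.2

theorem mul_inj {M b b' m m' p p' : ℕ} (_ : m ∈ sq P M) (hm' : m' ∈ sq P M) (hp : p ∈ pr P M b)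
    (hp' : p' ∈ pr P M b') (h : m * p = m' * p') : m = m' ∧ p = p' := by
  rw [mem_sq] at hm'
  rw [mem_pr] at hp hp'
  have h1 : p ∣ m' * p' := ⟨m, by rw [← h]; ring⟩
  have h2 : p = p' := by
    rcases (hp.2.1.dvd_mul).1 h1 with h3 | h3
    · have := Nat.le_of_dvd (by omega) h3
      omega
    · exact (Nat.prime_dvd_prime_iff_eq hp.2.1 hp'.2.1).1 h3
  subst h2
  exact ⟨Nat.eq_of_mul_eq_mul_right hp.2.1.pos h, rfl⟩

theorem Hs_nonneg (M : ℕ) : 0 ≤ Hs P M := Finset.sum_nonneg fun _ _ => by positivity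

theorem sq_mono {M N : ℕ} (h : M ≤ N) : sq P M ⊆ sq P N := by
  intro x hx
  rw [mem_sq] at hx ⊢
  exact ⟨⟨hx.1.1, hx.1.2.trans h⟩, hx.2⟩

theorem Hs_mono {M N : ℕ} (h : M ≤ N) : Hs P M ≤ Hs P N :=
  Finset.sum_le_sum_of_subset_of_nonneg (sq_mono h) fun _ _ _ => by positivity

theorem one_le_Hs {M : ℕ} (h : 1 ≤ M) : 1 ≤ Hs P M := by
  have := Finset.single_le_sum (f := fun m : ℕ => (1 : ℝ) / m) (s := sq P M)
    (fun _ _ => by positivity) (one_mem (P := P) h)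
  simpa [Hs] using this

/-- the recursion -/
theorem Hs_cube {M : ℕ} (hM : 1 ≤ M) :
    Hs P M * (1 + ∑ p ∈ pr P M (M ^ 2), (1 : ℝ) / p) ≤ Hs P (M ^ 3) := by
  have h1 : Hs P M * ∑ p ∈ pr P M (M ^ 2), (1 : ℝ) / p =
      ∑ x ∈ ((sq P M) ×ˢ (pr P M (M ^ 2))).image (fun x => x.1 * x.2), (1 : ℝ) / x := by
    rw [Finset.sum_image]
    · rw [Finset.sum_product, Hs, Finset.sum_mul_sum]
      refine Finset.sum_congr rfl fun m _ => Finset.sum_congr rfl fun p _ => ?_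
      push_cast
      rw [one_div_mul_one_div]
    · rintro ⟨m, p⟩ hx ⟨m', p'⟩ hx' h
      rw [Finset.mem_coe, mem_product] at hx hx'
      obtain ⟨h1, h2⟩ := mul_inj hx.1 hx'.1 hx.2 hx'.2 h
      exact Prod.ext h1 h2
  rw [mul_add, mul_one, h1]
  have hdis : Disjoint (sq P M) (((sq P M) ×ˢ (pr P M (M ^ 2))).image (fun x => x.1 * x.2)) := by
    rw [Finset.disjoint_left]
    intro x hx hx'
    rw [Finset.mem_image] at hx'
    obtain ⟨⟨m, p⟩, hmp, rfl⟩ := hx'
    rw [mem_product, mem_sq, mem_pr] at hmp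
    rw [mem_sq] at hx
    obtain ⟨⟨⟨hm1, _⟩, _⟩, ⟨⟨hp1, _⟩, _⟩⟩ := hmp
    have h2 : m * p ≤ M := hx.1.2
    have h3 : 1 * p ≤ m * p := Nat.mul_le_mul_right p hm1
    have h4 : M < p := hp1
    omega
  rw [Hs, ← Finset.sum_union hdis]
  refine Finset.sum_le_sum_of_subset_of_nonneg ?_ fun _ _ _ => by positivity
  intro x hx
  rw [mem_union] at hx
  rcases hx with hx | hx
  · exact sq_mono (Nat.le_self_pow (by norm_num) M) hx
  · rw [Finset.mem_image] at hx
    obtain ⟨⟨m, p⟩, hmp, rfl⟩ := hx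
    rw [mem_product] at hmp
    refine mul_mem hmp.1 hmp.2 ?_
    have h1 := (mem_sq.1 hmp.1).1.2
    have h2 := (mem_pr.1 hmp.2).1.2
    calc m * p ≤ M * M ^ 2 := Nat.mul_le_mul h1 h2
      _ = M ^ 3 := by ring

/-- counting the products -/
theorem card_sq (Y M : ℕ) :
    ∑ m ∈ sq P M, ((pr P M (Y / m)).card : ℝ) ≤ (sq P Y).card := by
  have h1 : ∑ m ∈ sq P M, (pr P M (Y / m)).card =
      (((sq P M).sigma (fun m => pr P M (Y / m))).image (fun x => x.1 * x.2)).card := by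
    rw [Finset.card_image_of_injOn, Finset.card_sigma]
    rintro ⟨m, p⟩ hx ⟨m', p'⟩ hx' h
    rw [Finset.mem_coe, mem_sigma] at hx hx'
    obtain ⟨h1, h2⟩ := mul_inj hx.1 hx'.1 hx.2 hx'.2 h
    dsimp only at h1 h2
    subst h1
    subst h2
    rfl
  norm_cast
  rw [h1]
  refine card_le_card ?_
  intro x hx
  rw [Finset.mem_image] at hx
  obtain ⟨⟨m, p⟩, hmp, rfl⟩ := hx
  rw [mem_sigma] at hmp
  refine mul_mem hmp.1 hmp.2 ?_
  have h1 := (mem_sq.1 hmp.1).1.1
  have h2 := (mem_pr.1 hmp.2).1.2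
  dsimp only at h2 ⊢
  calc m * p ≤ m * (Y / m) := Nat.mul_le_mul_left m h2
    _ ≤ Y := Nat.mul_div_le Y m

end Pool.Agent.H90.QC
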