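import Mathlib

/-!
The change of cutoff: from `Y / (log Y) ^ (1 - e)` with `Y = (X / C) ^ n / N₁` to `X ^ n / (log X) ^ (1 - e')`.
-/

set_option autoImplicit false

open Real Filter

namespace Pool.Agent.H90.QC

theorem cutoff {n : ℕ} (hn : 0 < n) {C N₁ : ℝ} (hC : 0 < C) (hN : 0 < N₁) {f : ℝ → ℝ}
    (h : ∃ e : ℝ, 0 < e ∧ ∃ Y₀ : ℝ, ∀ Y : ℝ, Y₀ ≤ Y → Y / log Y ^ (1 - e) ≤ f Y) :
    ∃ e : ℝ, 0 < e ∧ ∃ X₀ : ℝ, ∀ X : ℝ, X₀ ≤ X → 1 ≤ X ∧
      X ^ n / log X ^ (1 - e) ≤ f ((X / C) ^ n / N₁) := by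
  obtain ⟨e1, he1, Y₀, hY⟩ := h
  obtain ⟨e, hed⟩ : ∃ e : ℝ, e = min e1 1 := ⟨_, rfl⟩
  have he : 0 < e := by rw [hed]; exact lt_min he1 one_pos
  have hee : e ≤ e1 := hed ▸ min_le_left _ _
  have he2 : e ≤ 1 := hed ▸ min_le_right _ _
  obtain ⟨κ, hκ⟩ : ∃ κ : ℝ, κ = 1 / (C ^ n * N₁) := ⟨_, rfl⟩
  have hκ0 : 0 < κ := by rw [hκ]; positivity
  have hn1 : (1 : ℝ) ≤ n := by exact_mod_cast hn
  have t1 : Tendsto (fun X : ℝ => κ * X ^ n) atTop atTop :=
    (tendsto_pow_atTop (by omega)).const_mul_atTop hκ0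
  have t2 : Tendsto (fun X : ℝ => log (κ * X ^ n)) atTop atTop := tendsto_log_atTop.comp t1
  have t3 : Tendsto (fun X : ℝ => (log X) ^ (e / 2)) atTop atTop :=
    (tendsto_rpow_atTop (by positivity)).comp tendsto_log_atTop
  obtain ⟨X₀, hX₀⟩ := eventually_atTop.1
    (((t1.eventually (eventually_ge_atTop Y₀)).and (t2.eventually (eventually_ge_atTop 1))).and
      ((t3.eventually (eventually_ge_atTop (((n : ℝ) + 1) / κ))).and
        ((eventually_ge_atTop (1 : ℝ)).and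
          (tendsto_log_atTop.eventually (eventually_ge_atTop (max 1 (log κ)))))))
  refine ⟨e / 2, by positivity, X₀, fun X hX => ?_⟩
  obtain ⟨⟨a1, a2⟩, a3, a4, a5⟩ := hX₀ X hX
  refine ⟨a4, ?_⟩
  have hX0 : 0 < X := by linarith
  have hl1 : 1 ≤ log X := (le_max_left _ _).trans a5
  have hl2 : log κ ≤ log X := (le_max_right _ _).trans a5
  have hl0 : 0 < log X := by linarith
  have eY : (X / C) ^ n / N₁ = κ * X ^ n := by
    rw [hκ, div_pow]
    field_simp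
  rw [eY]
  refine le_trans ?_ (hY _ a1)
  have b0 : log (κ * X ^ n) ≤ ((n : ℝ) + 1) * log X := by
    rw [log_mul hκ0.ne' (by positivity), log_pow]
    linarith
  have b1 : log (κ * X ^ n) ^ (1 - e1) ≤ ((n : ℝ) + 1) * log X ^ (1 - e) := by
    calc log (κ * X ^ n) ^ (1 - e1) ≤ log (κ * X ^ n) ^ (1 - e) :=
          rpow_le_rpow_of_exponent_le a2 (by linarith)
      _ ≤ (((n : ℝ) + 1) * log X) ^ (1 - e) := rpow_le_rpow (by linarith) b0 (by linarith)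
      _ = ((n : ℝ) + 1) ^ (1 - e) * log X ^ (1 - e) := mul_rpow (by positivity) hl0.le
      _ ≤ ((n : ℝ) + 1) ^ (1 : ℝ) * log X ^ (1 - e) := by
          gcongr
          · linarith
          · linarith
      _ = ((n : ℝ) + 1) * log X ^ (1 - e) := by rw [rpow_one]
  have b2 : 0 < log (κ * X ^ n) ^ (1 - e1) := rpow_pos_of_pos (by linarith) _
  have b3 : 0 < log X ^ (1 - e) := rpow_pos_of_pos hl0 _
  have b4 : log X ^ (1 - e / 2) = log X ^ (e / 2) * log X ^ (1 - e) := by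
    rw [← rpow_add hl0]
    congr 1
    ring
  have b5 : 0 < log X ^ (e / 2) := rpow_pos_of_pos hl0 _
  calc X ^ n / log X ^ (1 - e / 2) ≤ κ * X ^ n / (((n : ℝ) + 1) * log X ^ (1 - e)) := by
        rw [b4, div_le_div_iff₀ (by positivity) (by positivity)]
        rw [div_le_iff₀ hκ0] at a3
        calc X ^ n * (((n : ℝ) + 1) * log X ^ (1 - e))
            ≤ X ^ n * ((log X ^ (e / 2) * κ) * log X ^ (1 - e)) := by gcongr
          _ = κ * X ^ n * (log X ^ (e / 2) * log X ^ (1 - e)) := by ring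
    _ ≤ κ * X ^ n / log (κ * X ^ n) ^ (1 - e1) := by gcongr

end Pool.Agent.H90.QC
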